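import Mathlib
import Pool.Agent.R355.Round4
import Pool.Agent.TH167.SH.Defs

set_option autoImplicit false

/-!
# The SHGH conjecture for the standard classes of negative square, up to a small margin

Let `D = d H - ∑ w i E i` be a standard class (`d ≥ w i + w j + w l` for all distinct `i, j, l`) on
the blow-up of the complex projective plane at `n` general points; `n` and the multiplicities are
arbitrary. The SHGH conjecture says that `h⁰ (D) = max (0, χ)`; if `D ^ 2 < 0` this means that the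
linear system is empty. Here it is proved if for some set `T` of `t ≤ 9` of the points, with
`q = d ^ 2 - ∑_{i ∈ T} w i ^ 2 > 0`, `a = ∑_{i ∉ T} w i ^ 2`, so that `D ^ 2 = q - a`,

* `(40 - 4 t) q < (39 - 4 t) a`, that is `D ^ 2 < -q / (39 - 4 t)`, for instance
  `40 d ^ 2 < 39 ∑ w i ^ 2` (`T` empty), or `4 q < 3 a` (`t = 9`); or
* `t = 9` and `q + 2 p √q < a`, `p = 3 d - ∑_{i ∈ T} w i`, that is `D ^ 2 < - 2 p √q`.

The same holds for every class which reflections in classes `H - E i - E j - E l` carry to `D`. For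
every class `D` and points in general position at least one of the following holds: `h⁰ (D) =
max (0, χ)`; some `(-1)`-curve `C` has `C D ≤ -2`; or `D`, after the removal of disjoint
`(-1)`-curves, each taken once, and finitely many quadratic transformations, is a standard class with
the same `h⁰`, different from `max (0, χ)`, for which no set `T` satisfies the inequalities.
-/

namespace Pool.Agent.Results.MP_70e04f_ag.EmptyStandardClasses

open MvPolynomial Pool.Agent.TH167.SHDefs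

/-- `h⁰ (D)` for the class `D = d H - ∑ w i E i`. -/
noncomputable def hZero {n : ℕ} (P : Fin n → Fin 2 → ℂ) (d : ℕ) (w : Fin n → ℕ) : ℤ :=
  (Module.finrank ℂ ↥(sys P d w) : ℤ)

/-- The Euler characteristic. -/
def chi {n : ℕ} (d : ℕ) (w : Fin n → ℕ) : ℤ :=
  ((d + 2).choose 2 : ℤ) - ∑ i, ((w i + 1).choose 2 : ℤ)

/-- The property holds for all `n`-tuples of points outside some hypersurface. -/
def ForGeneral {n : ℕ} (p : (Fin n → Fin 2 → ℂ) → Prop) : Prop :=
  ∃ F : MvPolynomial (Fin n × Fin 2) ℂ, F ≠ 0 ∧ ∀ P : Fin n → Fin 2 → ℂ,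
    eval (fun ij : Fin n × Fin 2 => P ij.1 ij.2) F ≠ 0 → p P

/-- The class `(d; w)` is standard. -/
def Standard {n : ℕ} (d : ℕ) (w : Fin n → ℕ) : Prop :=
  ∀ i j l : Fin n, i ≠ j → i ≠ l → j ≠ l → w i + w j + w l ≤ d

/-- The reflection of the class `a = (d; w)`, `d H - ∑ w l E l`, in the class
`H - E (i 0) - E (i 1) - E (i 2)`: with `δ = d - w (i 0) - w (i 1) - w (i 2)`, the numbers
`d`, `w (i 0)`, `w (i 1)`, `w (i 2)` are increased by `δ`. -/
def reflect {n : ℕ} (i : Fin 3 → Fin n) (a : ℝ × (Fin n → ℝ)) : ℝ × (Fin n → ℝ) :=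
  (a.1 + (a.1 - a.2 (i 0) - a.2 (i 1) - a.2 (i 2)),
    fun l => a.2 l + if l = i 0 ∨ l = i 1 ∨ l = i 2 then a.1 - a.2 (i 0) - a.2 (i 1) - a.2 (i 2)
      else 0)

/-- Finitely many reflections carry `(d; w)` to `(d'; w')`. -/
def Carries {n : ℕ} (d : ℕ) (w : Fin n → ℕ) (d' : ℕ) (w' : Fin n → ℕ) : Prop :=
  Relation.ReflTransGen
    (fun a b : ℝ × (Fin n → ℝ) => ∃ i : Fin 3 → Fin n, Function.Injective i ∧ b = reflect i a)
    ((d : ℝ), fun l => (w l : ℝ)) ((d' : ℝ), fun l => (w' l : ℝ))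

/-- `q = d ^ 2 - ∑_{i ∈ T} w i ^ 2`. -/
def inner {n : ℕ} (d : ℕ) (w : Fin n → ℕ) (T : Finset (Fin n)) : ℝ :=
  (d : ℝ) ^ 2 - ∑ i ∈ T, (w i : ℝ) ^ 2

/-- `a = ∑_{i ∉ T} w i ^ 2`. -/
def outer {n : ℕ} (w : Fin n → ℕ) (T : Finset (Fin n)) : ℝ := ∑ i ∈ Tᶜ, (w i : ℝ) ^ 2

/-- `p = 3 d - ∑_{i ∈ T} w i`. -/
def anti {n : ℕ} (d : ℕ) (w : Fin n → ℕ) (T : Finset (Fin n)) : ℝ :=
  3 * (d : ℝ) - ∑ i ∈ T, (w i : ℝ)

/-- The inequalities for the set `T`. -/
def Negative {n : ℕ} (d : ℕ) (w : Fin n → ℕ) (T : Finset (Fin n)) : Prop :=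
  0 < inner d w T ∧
    ((T.card ≤ 9 ∧ (40 - 4 * (T.card : ℝ)) * inner d w T < (39 - 4 * (T.card : ℝ)) * outer w T) ∨
      (T.card = 9 ∧ inner d w T + 2 * anti d w T * Real.sqrt (inner d w T) < outer w T))

theorem hZero_of {n : ℕ} {P : Fin n → Fin 2 → ℂ} {d : ℕ} {w : Fin n → ℕ}
    (h : Pool.Agent.H932R3.ExpDim ℂ w P d) : hZero P d w = max 0 (chi d w) := by
  have h1 : Module.finrank ℂ ↥(sys P d w) =
      Nat.choose (d + 2) 2 - ∑ i, Nat.choose (w i + 1) 2 := h
  have h2 : ∑ i, ((w i + 1).choose 2 : ℤ) = ((∑ i, Nat.choose (w i + 1) 2 : ℕ) : ℤ) := by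
    push_cast
    rfl
  unfold hZero chi
  rw [h1, h2]
  omega

theorem special_of_ne {n : ℕ} {P : Fin n → Fin 2 → ℂ} {d : ℕ} {w : Fin n → ℕ} :
    hZero P d w ≠ max 0 (chi d w) ↔ Pool.Agent.TH167.SH.Special P d w := by
  unfold hZero Pool.Agent.TH167.SH.Special
  rw [Pool.Agent.TH167.SH.sys_eq]
  exact Iff.rfl

theorem result (n : ℕ) (hn : 4 ≤ n) (d : ℕ) (w : Fin n → ℕ) :
    -- (1) the empty systems
    ((∃ (d' : ℕ) (w' : Fin n → ℕ) (T : Finset (Fin n)), Standard d' w' ∧ Negative d' w' T ∧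
        Carries d' w' d w) →
      chi d w ≤ 0 ∧ ForGeneral fun P => hZero P d w = 0) ∧
    -- (2) the reduction
    ForGeneral fun P =>
      hZero P d w = max 0 (chi d w) ∨
      (∃ (G : MvPolynomial (Fin 3) ℂ) (e : ℕ) (u : Fin n → ℕ), MinusOne P G e u ∧
        inter d w e u ≤ -2) ∨
      ∃ (d'' : ℕ) (w'' : Fin n → ℕ) (k : ℕ) (G : Fin k → MvPolynomial (Fin 3) ℂ)
        (e : Fin k → ℕ) (u : Fin k → Fin n → ℕ) (d' : ℕ) (w' : Fin n → ℕ),
        Decomp P d w d'' w'' G e u (fun _ => 1) ∧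
        Relation.ReflTransGen Quadratic (d'', w'') (d', w') ∧ Standard d' w' ∧
        hZero P d' w' = hZero P d w ∧ hZero P d' w' ≠ max 0 (chi d' w') ∧
        ∀ T, ¬ Negative d' w' T := by
  obtain ⟨r, rfl⟩ : ∃ r, n = r + 4 := ⟨n - 4, by omega⟩
  constructor
  · rintro ⟨d', w', T, hs, hT, hc⟩
    have hchi : chi d w ≤ 0 := by
      obtain ⟨f, hf⟩ := Pool.Agent.R355.Round.exists_indep (Fin (r + 4) × Fin 2)
      exact (Pool.Agent.R355.Round.empty_crit (P := fun i j => f (i, j)) hf hs hT hc).2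
    obtain ⟨F, hF, hF'⟩ := Pool.Agent.TH442.NF.to_open (d := d) (w := w)
      fun {_ _ _ P} hP => Pool.Agent.R355.Round.empty_exp hs hT hc hP
    refine ⟨hchi, F.map (algebraMap ℚ ℂ), Pool.Agent.TH167.SH.map_ne hF, fun P hP => ?_⟩
    rw [MvPolynomial.eval_map] at hP
    rw [hZero_of (hF' (L := ℂ) P hP), max_eq_left hchi]
  · obtain ⟨F, hF, hF'⟩ := Pool.Agent.Y536.SH.hh_full
      (Q := fun d' w' => ∃ T, Pool.Agent.R355.Round.EmptyCrit d' w' T)
      (fun hP d1 w1 hr hG => by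
        obtain ⟨T, hT⟩ := hG
        exact Pool.Agent.R355.Round.empty_exp hr hT Relation.ReflTransGen.refl hP) d w
    refine ⟨F.map (algebraMap ℚ ℂ), Pool.Agent.TH167.SH.map_ne hF, fun P hP => ?_⟩
    rw [Pool.Agent.TH167.SH.evP_eval] at hP
    by_cases hs : hZero P d w = max 0 (chi d w)
    · exact Or.inl hs
    · right
      have hsp := special_of_ne.1 hs
      rcases hF' ℂ P hP hsp with h | ⟨d', w', k, C, e, u, N, d1, w1, h1, h2, h3, h4, h5, h6⟩
      · left
        exact Pool.Agent.TH167.SH.mspecial_curve ((Pool.Agent.TH167.SH.mspecial_conv P d w).2 h)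
      · by_cases hN : ∃ a, 2 ≤ N a
        · left
          obtain ⟨a, ha⟩ := hN
          refine ⟨C a, e a, u a, Pool.Agent.TH167.SH.minusOne_iff.2 (h1.exc a), ?_⟩
          rw [Pool.Agent.TH167.SH.inter_eq, h1.neg a]
          omega
        · right
          push Not at hN
          have hN1 : N = fun _ => 1 := by
            funext a
            have := h1.pos a
            have := hN a
            omega
          subst hN1
          refine ⟨d', w', k, C, e, u, d1, w1, Pool.Agent.TH167.SH.decomp_iff.2 h1,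
            Pool.Agent.TH167.SH.chain_conv h2, h3, ?_, special_of_ne.2 h4,
            fun T hT => h6 ⟨T, hT⟩⟩
          unfold hZero
          rw [Pool.Agent.TH167.SH.sys_eq, Pool.Agent.TH167.SH.sys_eq, h5]

end Pool.Agent.Results.MP_70e04f_ag.EmptyStandardClasses
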